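import Mathlib

/-!
Job TO of project PT (helper23), by helper63: integers and their squarefree parts.
-/

set_option autoImplicit false

namespace Pool.Agent.K7.H63.TO

/-- four numbers -/
theorem four {x P Q R : ℤ} (hx : x ≠ 0) (h : x * P = Q * R) :
    ∃ u v w z : ℤ, x = u * v ∧ P = w * z ∧ Q = u * w ∧ R = v * z := by
  obtain ⟨u, v, ⟨w, hw⟩, ⟨z, hz⟩, huv⟩ := exists_dvd_and_dvd_of_dvd_mul (Dvd.intro _ h)
  refine ⟨u, v, w, z, huv, ?_, hw, hz⟩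
  apply mul_left_cancel₀ hx
  rw [h, hw, hz, huv]
  ring

/-- squarefree parts -/
theorem sqf (A : ℤ) (hA : A ≠ 0) : ∃ g y : ℤ, Squarefree g ∧ y ≠ 0 ∧ A = g * y ^ 2 ∧ |g| ≤ |A| := by
  obtain ⟨a, b, hab, ha⟩ := Nat.sq_mul_squarefree A.natAbs
  have hA0 : A.natAbs ≠ 0 := Int.natAbs_ne_zero.2 hA
  have hb : b ≠ 0 := by
    rintro rfl
    exact hA0 (by simpa using hab.symm)
  have h1 : A = (A.sign * a) * (b : ℤ) ^ 2 := by
    have h2 : A = A.sign * (A.natAbs : ℤ) := (Int.sign_mul_natAbs A).symm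
    rw [← hab] at h2
    push_cast at h2
    linear_combination h2
  refine ⟨A.sign * a, b, ?_, by exact_mod_cast hb, h1, ?_⟩
  · refine Int.squarefree_natAbs.1 ?_
    rw [Int.natAbs_mul, Int.natAbs_sign_of_ne_zero hA, one_mul, Int.natAbs_natCast]
    exact ha
  · have h3 : 1 ≤ |(b : ℤ) ^ 2| := Int.one_le_abs (pow_ne_zero _ (by exact_mod_cast hb))
    calc |A.sign * (a : ℤ)| = |A.sign * (a : ℤ)| * 1 := (mul_one _).symm
      _ ≤ |A.sign * (a : ℤ)| * |(b : ℤ) ^ 2| := mul_le_mul_of_nonneg_left h3 (abs_nonneg _)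
      _ = |A| := by rw [← abs_mul, ← h1]

/-- a squarefree number is determined up to squares -/
theorem sf_dvd {A B c y : ℤ} (hA : Squarefree A) (hB : B ≠ 0) (h : A * B ^ 2 = c * y ^ 2) : A ∣ c := by
  obtain ⟨g, B', y', hg, hco, hB', hy'⟩ : ∃ g B' y' : ℤ, g ≠ 0 ∧ IsCoprime B' y' ∧ B = g * B' ∧ y = g * y' := by
    obtain ⟨B', hB'⟩ := Int.gcd_dvd_left (a := B) (b := y)
    obtain ⟨y', hy'⟩ := Int.gcd_dvd_right (a := B) (b := y)
    have hg : ((Int.gcd B y : ℕ) : ℤ) ≠ 0 := by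
      intro h0
      rw [h0, zero_mul] at hB'
      exact hB hB'
    refine ⟨Int.gcd B y, B', y', hg, ⟨Int.gcdA B y, Int.gcdB B y, ?_⟩, hB', hy'⟩
    apply mul_left_cancel₀ hg
    have h1 := Int.gcd_eq_gcd_ab B y
    calc ((Int.gcd B y : ℕ) : ℤ) * (Int.gcdA B y * B' + Int.gcdB B y * y')
        = (((Int.gcd B y : ℕ) : ℤ) * B') * Int.gcdA B y + (((Int.gcd B y : ℕ) : ℤ) * y') * Int.gcdB B y := by ring
      _ = B * Int.gcdA B y + y * Int.gcdB B y := by rw [← hB', ← hy']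
      _ = ((Int.gcd B y : ℕ) : ℤ) * 1 := by rw [mul_one, h1]
  have h1 : A * B' ^ 2 = c * y' ^ 2 := by
    apply mul_left_cancel₀ (pow_ne_zero 2 hg)
    rw [hB', hy'] at h
    linear_combination h
  have h2 : y' ^ 2 ∣ A := by
    have h3 : y' ^ 2 ∣ A * B' ^ 2 := ⟨c, by rw [h1]; ring⟩
    exact (hco.symm.pow).dvd_of_dvd_mul_right h3
  have h3 : IsUnit y' := hA y' (by rw [← sq]; exact h2)
  have h4 : y' ^ 2 = 1 := by
    rcases Int.isUnit_iff.1 h3 with h5 | h5 <;> rw [h5] <;> norm_num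
  rw [h4, mul_one] at h1
  exact ⟨B' ^ 2, h1.symm⟩

/-- the squarefree parts of two factors of `c y²` -/
theorem prod_sf {P Q g h p q c y d : ℤ} (hP : P = g * p ^ 2) (hQ : Q = h * q ^ 2) (hg : Squarefree g)
    (hh : Squarefree h) (hP0 : P ≠ 0) (hQ0 : Q ≠ 0) (hc : P * Q = c * y ^ 2) (hd : d ≠ 0)
    (hgcd : ∀ k : ℤ, k ∣ P → k ∣ Q → k ∣ d) : |g * h| ≤ d ^ 2 * |c| := by
  have hg0 : g ≠ 0 := fun h0 => hP0 (by rw [hP, h0, zero_mul])
  have hh0 : h ≠ 0 := fun h0 => hQ0 (by rw [hQ, h0, zero_mul])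
  have hp0 : p ≠ 0 := fun h0 => hP0 (by rw [hP, h0]; ring)
  have hq0 : q ≠ 0 := fun h0 => hQ0 (by rw [hQ, h0]; ring)
  obtain ⟨k, α, β, hk, hco, hα, hβ⟩ : ∃ k α β : ℤ, k ≠ 0 ∧ IsCoprime α β ∧ g = k * α ∧ h = k * β := by
    obtain ⟨B', hB'⟩ := Int.gcd_dvd_left (a := g) (b := h)
    obtain ⟨y', hy'⟩ := Int.gcd_dvd_right (a := g) (b := h)
    have hg : ((Int.gcd g h : ℕ) : ℤ) ≠ 0 := by
      intro h0
      rw [h0, zero_mul] at hB'
      exact hg0 hB'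
    refine ⟨Int.gcd g h, B', y', hg, ⟨Int.gcdA g h, Int.gcdB g h, ?_⟩, hB', hy'⟩
    apply mul_left_cancel₀ hg
    have h1 := Int.gcd_eq_gcd_ab g h
    calc ((Int.gcd g h : ℕ) : ℤ) * (Int.gcdA g h * B' + Int.gcdB g h * y')
        = (((Int.gcd g h : ℕ) : ℤ) * B') * Int.gcdA g h + (((Int.gcd g h : ℕ) : ℤ) * y') * Int.gcdB g h := by ring
      _ = g * Int.gcdA g h + h * Int.gcdB g h := by rw [← hB', ← hy']
      _ = ((Int.gcd g h : ℕ) : ℤ) * 1 := by rw [mul_one, h1]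
  have hkd : k ∣ d := hgcd k (by rw [hP, hα]; exact ⟨α * p ^ 2, by ring⟩) (by rw [hQ, hβ]; exact ⟨β * q ^ 2, by ring⟩)
  have hαβ : Squarefree (α * β) := by
    rw [squarefree_mul_iff]
    refine ⟨hco.isRelPrime, ?_, ?_⟩
    · rw [hα] at hg
      exact hg.of_mul_right
    · rw [hβ] at hh
      exact hh.of_mul_right
  have h1 : (α * β) * (k * p * q) ^ 2 = c * y ^ 2 := by
    rw [← hc, hP, hQ, hα, hβ]
    ring
  have h2 : α * β ∣ c := sf_dvd hαβ (mul_ne_zero (mul_ne_zero hk hp0) hq0) h1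
  have hc0 : c ≠ 0 := by
    rintro rfl
    rw [zero_mul] at hc
    exact mul_ne_zero hP0 hQ0 hc
  have h3 : |α * β| ≤ |c| := by
    rw [← Int.natCast_natAbs, ← Int.natCast_natAbs c]
    exact_mod_cast Nat.le_of_dvd (Int.natAbs_pos.2 hc0) (Int.natAbs_dvd_natAbs.2 h2)
  have h4 : |k| ≤ |d| := by
    rw [← Int.natCast_natAbs, ← Int.natCast_natAbs d]
    exact_mod_cast Nat.le_of_dvd (Int.natAbs_pos.2 hd) (Int.natAbs_dvd_natAbs.2 hkd)
  have h5 : k ^ 2 ≤ d ^ 2 := sq_le_sq.2 h4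
  calc |g * h| = k ^ 2 * |α * β| := by
        rw [hα, hβ, show k * α * (k * β) = k ^ 2 * (α * β) by ring, abs_mul, abs_of_nonneg (sq_nonneg k)]
    _ ≤ d ^ 2 * |c| := mul_le_mul h5 h3 (abs_nonneg _) (sq_nonneg _)

/-- the points of the conic -/
theorem param {a b m x c₁ y w₀ N : ℤ} (hb : b ≠ 0) (hm : 0 < m) (hΔ : a ^ 2 - 4 * b ≠ 0) (hx : x ≠ 0)
    (hcN : |c₁| ≤ N) (hxc : x = c₁ * y ^ 2) (hw : b * (x ^ 2 + a * x * m + b * m ^ 2) = w₀ ^ 2) :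
    ∃ v w n c r : ℤ, n ≠ 0 ∧ n ∣ b ^ 2 * m ^ 2 * (a ^ 2 - 4 * b) ∧ w ^ 2 = b * v ^ 2 + n ∧
      x * n = b * m * v * (a * v - 2 * w) ∧ v = c * r ^ 2 ∧ Squarefree c ∧ c ^ 2 ≤ (2 * b * m) ^ 2 * N := by
  have h0 : x * (b * (x + a * m)) = (w₀ - b * m) * (w₀ + b * m) := by linear_combination hw
  obtain ⟨u, v, w, z, huv, hP, hQ, hR⟩ := four hx h0
  have hu0 : u ≠ 0 := fun h => hx (by rw [huv, h, zero_mul])
  have hv0 : v ≠ 0 := fun h => hx (by rw [huv, h, mul_zero])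
  have hdiff : v * z - u * w = 2 * b * m := by linear_combination hQ - hR
  -- the two constants
  have hnn : (w ^ 2 - b * v ^ 2) * (z ^ 2 - b * u ^ 2) = b ^ 2 * m ^ 2 * (a ^ 2 - 4 * b) := by
    have e1 : (w ^ 2 - b * v ^ 2) * (z ^ 2 - b * u ^ 2) =
        (w * z) ^ 2 - b * (v * z) ^ 2 - b * (u * w) ^ 2 + b ^ 2 * (u * v) ^ 2 := by ring
    rw [e1, ← hP, ← hQ, ← hR, ← huv]
    linear_combination (2 * b) * hw
  have hK : b ^ 2 * m ^ 2 * (a ^ 2 - 4 * b) ≠ 0 :=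
    mul_ne_zero (mul_ne_zero (pow_ne_zero _ hb) (pow_ne_zero _ hm.ne')) hΔ
  have hn0 : w ^ 2 - b * v ^ 2 ≠ 0 := fun h => hK (by rw [← hnn, h, zero_mul])
  have hn0' : z ^ 2 - b * u ^ 2 ≠ 0 := fun h => hK (by rw [← hnn, h, mul_zero])
  have hnu : (w ^ 2 - b * v ^ 2) * u = b * m * (a * v - 2 * w) := by
    linear_combination w * hR - v * hP - w * hQ + b * v * huv
  have hnv : (z ^ 2 - b * u ^ 2) * v = b * m * (a * u + 2 * z) := by
    linear_combination z * hQ - u * hP - z * hR + b * u * huv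
  obtain ⟨cu, s, hcu, hs, hus, -⟩ := sqf u hu0
  obtain ⟨cv, r, hcv, hr, hvr, -⟩ := sqf v hv0
  have h2bm : 2 * b * m ≠ 0 := mul_ne_zero (mul_ne_zero two_ne_zero hb) hm.ne'
  have hprod : |cu * cv| ≤ (2 * b * m) ^ 2 * |c₁| := by
    refine prod_sf hus hvr hcu hcv hu0 hv0 (by rw [← huv, hxc]) h2bm fun k h1 h2 => ?_
    rw [← hdiff]
    exact dvd_sub (h2.mul_right _) (h1.mul_right _)
  have hprod' : |cu| * |cv| ≤ (2 * b * m) ^ 2 * N := by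
    rw [← abs_mul]
    exact hprod.trans (mul_le_mul_of_nonneg_left hcN (sq_nonneg _))
  rcases le_total |cu| |cv| with h1 | h1
  · refine ⟨u, -z, z ^ 2 - b * u ^ 2, cu, s, hn0', ⟨w ^ 2 - b * v ^ 2, by rw [← hnn]; ring⟩, by ring, ?_, hus, hcu, ?_⟩
    · rw [huv]
      linear_combination u * hnv
    · calc cu ^ 2 = |cu| * |cu| := by rw [← sq, sq_abs]
        _ ≤ |cu| * |cv| := mul_le_mul_of_nonneg_left h1 (abs_nonneg _)
        _ ≤ _ := hprod'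
  · refine ⟨v, w, w ^ 2 - b * v ^ 2, cv, r, hn0, ⟨z ^ 2 - b * u ^ 2, hnn.symm⟩, by ring, ?_, hvr, hcv, ?_⟩
    · rw [huv]
      linear_combination v * hnu
    · calc cv ^ 2 = |cv| * |cv| := by rw [← sq, sq_abs]
        _ ≤ |cu| * |cv| := mul_le_mul_of_nonneg_right h1 (abs_nonneg _)
        _ ≤ _ := hprod'

end Pool.Agent.K7.H63.TO
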