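import Pool.Agent.K7.H63.TO.Arith
import Pool.Agent.K7.H23.AT.Stm2

/-!
Job TO of project PT (helper23), by helper63: the classes of the points on `b y² = T² + β` with a given squarefree part of `T`.
-/

set_option autoImplicit false

open Polynomial

namespace Pool.Agent.K7.H63.TO

open Pool.Agent.K7.H23.AT

theorem decomp (b β : ℤ) (hb : b ≠ 0) (hβ : β ≠ 0) : ∃ (k : ℕ) (f : Fin k → ℤ[X]) (K : ℕ), k ≤ 3 ∧ 1 ≤ K ∧
    (∀ i, (f i).Monic) ∧ (∀ i, Irreducible (f i)) ∧ Function.Injective f ∧ ∏ i, f i = X ^ 3 + C β * X ∧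
    ∀ (Y : ℕ) (T : ℤ), T ≠ 0 → (∃ c r : ℤ, Squarefree c ∧ |c| ≤ Y ∧ T = c * r ^ 2) →
      (∃ w : ℤ, w ≠ 0 ∧ T ^ 2 + β = b * w ^ 2) →
      ∃ g y : Fin k → ℤ, (∀ i, Squarefree (g i)) ∧ ∏ i, |g i| ≤ ((K * Y : ℕ) : ℤ) ∧ (∀ i, y i ≠ 0) ∧
        ∀ i, (f i).eval T = g i * y i ^ 2 := by
  classical
  by_cases hsq : IsSquare (-β)
  · obtain ⟨e, he⟩ := hsq
    have he0 : e ≠ 0 := by
      rintro rfl
      rw [mul_zero] at he
      exact hβ (by linarith)
    refine ⟨3, ![X, X - C e, X + C e], b.natAbs * (2 * e).natAbs ^ 2, le_rfl, ?_, ?_, ?_, ?_, ?_, ?_⟩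
    · have h1 : b.natAbs ≠ 0 := Int.natAbs_ne_zero.2 hb
      have h2 : (2 * e).natAbs ≠ 0 := Int.natAbs_ne_zero.2 (mul_ne_zero two_ne_zero he0)
      exact Nat.one_le_iff_ne_zero.2 (mul_ne_zero h1 (pow_ne_zero _ h2))
    · intro i
      fin_cases i
      · exact monic_X
      · exact monic_X_sub_C e
      · exact monic_X_add_C e
    · intro i
      fin_cases i
      · exact irreducible_X
      · exact irreducible_X_sub_C e
      · show Irreducible (X + C e)
        have : (X + C e : ℤ[X]) = X - C (-e) := by simp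
        rw [this]
        exact irreducible_X_sub_C _
    · have hinj : ∀ r r' : ℤ, (X - C r : ℤ[X]) = X - C r' → r = r' := by
        intro r r' h
        have h1 := congrArg (Polynomial.eval r) h
        simp only [eval_sub, eval_X, eval_C, sub_self] at h1
        linarith
      have hf : (![X, X - C e, X + C e] : Fin 3 → ℤ[X]) = fun i => X - C (![0, e, -e] i) := by
        funext i
        fin_cases i <;> simp
      rw [hf]
      have hv : Function.Injective (![0, e, -e] : Fin 3 → ℤ) := by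
        intro i j h
        match i, j, h with
        | 0, 0, _ => rfl
        | 0, 1, h => exact absurd (show (0 : ℤ) = e from h).symm he0
        | 0, 2, h => exact absurd (show (0 : ℤ) = -e from h) (by omega)
        | 1, 0, h => exact absurd (show e = (0 : ℤ) from h) he0
        | 1, 1, _ => rfl
        | 1, 2, h => exact absurd (show e = -e from h) (by omega)
        | 2, 0, h => exact absurd (show -e = (0 : ℤ) from h) (by omega)
        | 2, 1, h => exact absurd (show -e = e from h) (by omega)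
        | 2, 2, _ => rfl
      intro i j hij
      exact hv (hinj _ _ hij)
    · rw [Fin.prod_univ_three]
      show X * (X - C e) * (X + C e) = X ^ 3 + C β * X
      have h1 : β = -(e * e) := by linarith
      rw [h1, C_neg, C_mul]
      ring
    · rintro Y T hT ⟨c, r, hc, hcY, hTc⟩ ⟨w, hw, hTw⟩
      have h1 : (T - e) * (T + e) = b * w ^ 2 := by
        rw [← hTw]
        linear_combination he
      have h2 : (T - e) * (T + e) ≠ 0 := by
        rw [h1]
        exact mul_ne_zero hb (pow_ne_zero _ hw)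
      have h3 : T - e ≠ 0 := left_ne_zero_of_mul h2
      have h4 : T + e ≠ 0 := right_ne_zero_of_mul h2
      obtain ⟨g₂, y₂, hg₂, hy₂, hP, -⟩ := sqf _ h3
      obtain ⟨g₃, y₃, hg₃, hy₃, hQ, -⟩ := sqf _ h4
      have h5 := prod_sf hP hQ hg₂ hg₃ h3 h4 h1 (mul_ne_zero two_ne_zero he0 : (2 * e : ℤ) ≠ 0) (fun k hk1 hk2 => by
        have : (2 * e : ℤ) = (T + e) - (T - e) := by ring
        rw [this]
        exact dvd_sub hk2 hk1)
      have hr : r ≠ 0 := by
        rintro rfl
        exact hT (by rw [hTc]; ring)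
      refine ⟨![c, g₂, g₃], ![r, y₂, y₃], ?_, ?_, ?_, ?_⟩
      · intro i
        fin_cases i
        · exact hc
        · exact hg₂
        · exact hg₃
      · rw [Fin.prod_univ_three]
        show |c| * |g₂| * |g₃| ≤ _
        rw [mul_assoc, ← abs_mul]
        push_cast
        rw [sq_abs]
        calc |c| * |g₂ * g₃| ≤ (Y : ℤ) * ((2 * e) ^ 2 * |b|) := mul_le_mul hcY h5 (abs_nonneg _) (by positivity)
          _ = |b| * (2 * e) ^ 2 * Y := by ring
      · intro i
        fin_cases i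
        · exact hr
        · exact hy₂
        · exact hy₃
      · intro i
        fin_cases i
        · show (X : ℤ[X]).eval T = c * r ^ 2
          rw [eval_X, hTc]
        · show (X - C e : ℤ[X]).eval T = g₂ * y₂ ^ 2
          rw [eval_sub, eval_X, eval_C, hP]
        · show (X + C e : ℤ[X]).eval T = g₃ * y₃ ^ 2
          rw [eval_add, eval_X, eval_C, hQ]
  · refine ⟨2, ![X, X ^ 2 + C β], b.natAbs, by norm_num, ?_, ?_, ?_, ?_, ?_, ?_⟩
    · exact Nat.one_le_iff_ne_zero.2 (Int.natAbs_ne_zero.2 hb)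
    · intro i
      fin_cases i
      · exact monic_X
      · exact monic_X_pow_add_C β two_ne_zero
    · intro i
      fin_cases i
      · exact irreducible_X
      · show Irreducible (X ^ 2 + C β)
        have hm : (X ^ 2 + C β : ℤ[X]).Monic := monic_X_pow_add_C β two_ne_zero
        have hd : (X ^ 2 + C β : ℤ[X]).natDegree = 2 := natDegree_X_pow_add_C
        rw [hm.irreducible_iff_roots_eq_zero_of_degree_le_three (by rw [hd]) (by rw [hd]; norm_num)]
        rw [Multiset.eq_zero_iff_forall_notMem]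
        intro r hr
        rw [mem_roots hm.ne_zero, IsRoot.def] at hr
        simp only [eval_add, eval_pow, eval_X, eval_C] at hr
        exact hsq ⟨r, by linear_combination -hr⟩
    · intro i j hij
      have h1 : (X : ℤ[X]) ≠ X ^ 2 + C β := by
        intro h
        have h2 := congrArg natDegree h
        rw [natDegree_X, natDegree_X_pow_add_C] at h2
        omega
      fin_cases i <;> fin_cases j
      · rfl
      · exact absurd hij h1
      · exact absurd hij.symm h1
      · rfl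
    · rw [Fin.prod_univ_two]
      show X * (X ^ 2 + C β) = X ^ 3 + C β * X
      ring
    · rintro Y T hT ⟨c, r, hc, hcY, hTc⟩ ⟨w, hw, hTw⟩
      obtain ⟨g₂, y₂, hg₂, hy₂, hP, hg₂b⟩ := sqf _ hb
      have hr : r ≠ 0 := by
        rintro rfl
        exact hT (by rw [hTc]; ring)
      refine ⟨![c, g₂], ![r, y₂ * w], ?_, ?_, ?_, ?_⟩
      · intro i
        fin_cases i
        · exact hc
        · exact hg₂
      · rw [Fin.prod_univ_two]
        show |c| * |g₂| ≤ _
        push_cast
        calc |c| * |g₂| ≤ (Y : ℤ) * |b| := mul_le_mul hcY hg₂b (abs_nonneg _) (by positivity)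
          _ = |b| * Y := by ring
      · intro i
        fin_cases i
        · exact hr
        · exact mul_ne_zero hy₂ hw
      · intro i
        fin_cases i
        · show (X : ℤ[X]).eval T = c * r ^ 2
          rw [eval_X, hTc]
        · show (X ^ 2 + C β : ℤ[X]).eval T = g₂ * (y₂ * w) ^ 2
          rw [eval_add, eval_pow, eval_X, eval_C, hTw]
          conv_lhs => rw [hP]
          ring

/-- the cubic is separable -/
theorem sep (β : ℤ) (hβ : β ≠ 0) : ((X ^ 3 + C β * X : ℤ[X]).map (Int.castRingHom ℚ)).Separable := by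
  have hβ' : (β : ℚ) ≠ 0 := by exact_mod_cast hβ
  have h1 : (X ^ 3 + C β * X : ℤ[X]).map (Int.castRingHom ℚ) = X ^ 3 + C (β : ℚ) * X := by
    simp
  rw [h1, Polynomial.Separable]
  have h2 : derivative (X ^ 3 + C (β : ℚ) * X) = 3 * X ^ 2 + C (β : ℚ) := by
    have h3 : (C (3 : ℚ) : ℚ[X]) = 3 := rfl
    rw [derivative_add, derivative_X_pow, derivative_C_mul, derivative_X, mul_one]
    norm_num [h3]
  rw [h2]
  refine ⟨C ((2 * (β : ℚ) ^ 2)⁻¹) * (-9 * X), C ((2 * (β : ℚ) ^ 2)⁻¹) * (2 * C (β : ℚ) + 3 * X ^ 2), ?_⟩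
  have h3 : C ((2 * (β : ℚ) ^ 2)⁻¹) * (2 * C (β : ℚ) ^ 2) = 1 := by
    have h4 : (2 * C (β : ℚ) ^ 2 : ℚ[X]) = C (2 * (β : ℚ) ^ 2) := by
      rw [C_mul, C_pow]
      rfl
    rw [h4, ← C_mul, inv_mul_cancel₀ (by positivity), C_1]
  linear_combination h3

theorem classes (hPC : StPC) (hSF : StSF) : ∃ M : ℕ, ∀ b β : ℤ, b ≠ 0 → β ≠ 0 → ∃ K : ℕ, 1 ≤ K ∧
    ∀ Y : ℕ, 1 ≤ Y → ∀ s : Finset ℤ, (∀ T ∈ s, ((K * Y : ℕ) : ℤ) ^ M < |T| ∧
      (∃ c r : ℤ, Squarefree c ∧ |c| ≤ Y ∧ T = c * r ^ 2) ∧ ∃ w : ℤ, w ≠ 0 ∧ T ^ 2 + β = b * w ^ 2) →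
    s.card ≤ K * Y * (Nat.log 2 (K * Y) + 1) ^ 3 := by
  classical
  obtain ⟨M, N, hN⟩ := hSF 3 le_rfl
  refine ⟨M, fun b β hb hβ => ?_⟩
  obtain ⟨k, f, K₀, hk, hK₀, hmon, hirr, hinj, hprod, hdec⟩ := decomp b β hb hβ
  obtain ⟨c, hc⟩ := hPC k f hmon hirr hinj
  set K : ℕ := 2 * (c * K₀ + β.natAbs + 1) + K₀ + c * K₀ * N + 1 with hK
  have hK1 : 1 ≤ K := by rw [hK]; omega
  have hKK₀ : K₀ ≤ K := by rw [hK]; omega
  refine ⟨K, hK1, fun Y hY s hs => ?_⟩
  have hKY : 1 ≤ K * Y := Nat.one_le_iff_ne_zero.2 (Nat.mul_ne_zero (by omega) (by omega))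
  obtain ⟨S, hScard, hSθ, hS⟩ := hc (K₀ * Y) (Nat.one_le_iff_ne_zero.2 (Nat.mul_ne_zero (by omega) (by omega)))
  have hT0 : ∀ T ∈ s, T ≠ 0 := by
    rintro T hT rfl
    have h1 := (hs 0 hT).1
    rw [abs_zero] at h1
    have h2 : (0 : ℤ) ≤ ((K * Y : ℕ) : ℤ) ^ M := by positivity
    linarith
  have hex : ∀ T ∈ s, ∃ D ∈ S, ∃ B : ℚ[X], (∏ i, f i).map (Int.castRingHom ℚ) ∣
      B ^ 2 - D * (C (T : ℚ) - C ((1 : ℤ) : ℚ) * X) := by
    intro T hT
    obtain ⟨-, h1, h2⟩ := hs T hT
    obtain ⟨g, y, hg, hgY, hy, hev⟩ := hdec Y T (hT0 T hT) h1 h2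
    refine hS T 1 g y one_ne_zero isCoprime_one_right hg ?_ hy fun i => ?_
    · exact_mod_cast hgY
    · rw [show (f i).scaleRoots 1 = f i from scaleRoots_one _]
      exact hev i
  choose! φ hφS hφ using hex
  set H : ℕ := c * (K₀ * Y) + β.natAbs + 1 with hH
  have hHK : 2 * H ≤ K * Y := by
    have h1 : 2 * H ≤ 2 * (c * K₀ + β.natAbs + 1) * Y := by
      rw [hH]
      have h2 : β.natAbs ≤ β.natAbs * Y := Nat.le_mul_of_pos_right _ (by omega)
      nlinarith
    refine h1.trans (Nat.mul_le_mul_right _ ?_)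
    rw [hK]
    omega
  have hfib : ∀ D ∈ S, (s.filter fun T => φ T = D).card ≤ N := by
    intro D hD
    have h1 := hN H (∏ i, f i) D ((s.filter fun T => φ T = D).image fun T => (T, (1 : ℤ))) (by rw [hH]; omega)
      (by
        exact monic_prod_of_monic _ _ fun i _ => hmon i)
      (by
        rw [hprod]
        compute_degree!)
      (by
        rw [hprod]
        exact sep β hβ)
      (by
        intro i
        rw [hprod, coeff_add, coeff_X_pow, coeff_C_mul, coeff_X]
        have h2 : |β| = (β.natAbs : ℤ) := (Int.natCast_natAbs β).symm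
        rw [hH]
        push_cast
        have h3 : (0 : ℤ) ≤ c * (K₀ * Y) := by positivity
        by_cases hi3 : i = 3
        · subst hi3
          norm_num
          positivity
        · by_cases hi1 : i = 1
          · subst hi1
            norm_num
            linarith
          · rw [if_neg hi3, if_neg (Ne.symm hi1)]
            norm_num
            positivity)
      (by
        intro θ hθ
        obtain ⟨h2, h3, h4⟩ := hSθ D hD θ hθ
        refine ⟨h2, h3, h4.trans ?_⟩
        rw [hH]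
        push_cast
        have : (0 : ℝ) ≤ (β.natAbs : ℝ) := by positivity
        linarith)
      (by
        intro p hp
        obtain ⟨T, hT, rfl⟩ := Finset.mem_image.1 hp
        rw [Finset.mem_filter] at hT
        refine ⟨one_pos, ?_, isCoprime_one_right, ?_, 1, one_ne_zero, ?_⟩
        · show (1 : ℤ) ≤ (H : ℤ)
          rw [hH]
          push_cast
          have h3 : (0 : ℤ) ≤ c * (K₀ * Y) := by positivity
          have h4 : (0 : ℤ) ≤ |β| := abs_nonneg _
          linarith
        · show (2 * (H : ℤ)) ^ M < |T|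
          refine lt_of_le_of_lt ?_ (hs T hT.1).1
          refine pow_le_pow_left₀ (by positivity) ?_ _
          exact_mod_cast hHK
        · obtain ⟨B, hB⟩ := hφ T hT.1
          refine ⟨B, ?_⟩
          rw [hT.2] at hB
          simpa using hB)
    rw [Finset.card_image_of_injective _ (fun a b h => (Prod.mk.inj h).1)] at h1
    exact h1
  have h1 := Finset.card_le_mul_card_image_of_maps_to (s := s) (t := S) (f := φ) hφS N hfib
  refine h1.trans ?_
  have h2 : Nat.log 2 (K₀ * Y) + 1 ≤ Nat.log 2 (K * Y) + 1 := by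
    have := Nat.log_mono_right (b := 2) (Nat.mul_le_mul_right Y hKK₀)
    omega
  have h3 : (Nat.log 2 (K₀ * Y) + 1) ^ k ≤ (Nat.log 2 (K * Y) + 1) ^ 3 :=
    (Nat.pow_le_pow_left h2 k).trans (Nat.pow_le_pow_right (by omega) hk)
  calc N * S.card ≤ N * (c * (K₀ * Y) * (Nat.log 2 (K₀ * Y) + 1) ^ k) := Nat.mul_le_mul_left _ hScard
    _ ≤ N * (c * (K₀ * Y) * (Nat.log 2 (K * Y) + 1) ^ 3) := Nat.mul_le_mul_left _ (Nat.mul_le_mul_left _ h3)
    _ = (c * K₀ * N) * Y * (Nat.log 2 (K * Y) + 1) ^ 3 := by ring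
    _ ≤ K * Y * (Nat.log 2 (K * Y) + 1) ^ 3 := by
        refine Nat.mul_le_mul_right _ (Nat.mul_le_mul_right _ ?_)
        rw [hK]
        omega

end Pool.Agent.K7.H63.TO
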